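import Pool.Agent.H23.GZ.Targets5

/-!
Row PKB of the board gz: the polynomial `pK`.
-/

namespace Pool.Agent.H45.GZ

open Pool.Agent.H34.GM Pool.Agent.H34.GZ

lemma pK_succ (K : ℕ) :
    pK (K + 1) = pK K * (Polynomial.C ((1 / 2 : ℝ) ^ K) * Polynomial.X - 1) := by
  unfold pK
  rw [Finset.prod_range_succ]

lemma pK_natDegree (K : ℕ) : (pK K).natDegree ≤ K := by
  induction K with
  | zero => simp [pK]
  | succ K ih =>
    rw [pK_succ]
    refine le_trans Polynomial.natDegree_mul_le ?_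
    have h1 : (Polynomial.C ((1 / 2 : ℝ) ^ K) * Polynomial.X - 1 : Polynomial ℝ).natDegree ≤ 1 := by
      have h2 := Polynomial.natDegree_linear_le (a := (1 / 2 : ℝ) ^ K) (b := -1)
      have h3 : (Polynomial.C ((1 / 2 : ℝ) ^ K) * Polynomial.X - 1 : Polynomial ℝ)
          = Polynomial.C ((1 / 2 : ℝ) ^ K) * Polynomial.X + Polynomial.C (-1) := by
        rw [map_neg, map_one, sub_eq_add_neg]
      rw [h3]
      exact h2
    omega

lemma pK_eval (K : ℕ) (X : ℂ) : ∑ n ∈ Finset.range (K + 1),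
    (((pK K).coeff n : ℝ) : ℂ) * X ^ n = ∏ k ∈ Finset.range K, ((1 / 2 : ℂ) ^ k * X - 1) := by
  have h1 : ((pK K).map (algebraMap ℝ ℂ)).natDegree < K + 1 :=
    lt_of_le_of_lt Polynomial.natDegree_map_le (Nat.lt_succ_of_le (pK_natDegree K))
  have h2 := Polynomial.eval_eq_sum_range' h1 X
  have h3 : ((pK K).map (algebraMap ℝ ℂ)).eval X
      = ∏ k ∈ Finset.range K, ((1 / 2 : ℂ) ^ k * X - 1) := by
    unfold pK
    rw [Polynomial.map_prod, Polynomial.eval_prod]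
    refine Finset.prod_congr rfl fun k _ => ?_
    simp
  rw [← h3, h2]
  refine Finset.sum_congr rfl fun n _ => ?_
  rw [Polynomial.coeff_map]
  rfl

lemma pK_coeff (K : ℕ) : ∀ n : ℕ, |(pK K).coeff n| ≤ 2 ^ K := by
  induction K with
  | zero =>
    intro n
    have h : pK 0 = 1 := by simp [pK]
    rw [h, Polynomial.coeff_one]
    split_ifs <;> simp
  | succ K ih =>
    intro n
    have ha : |(1 / 2 : ℝ) ^ K| ≤ 1 := by
      rw [abs_pow]
      exact pow_le_one₀ (abs_nonneg _) (by rw [abs_of_pos] <;> norm_num)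
    have hp : (0 : ℝ) < 2 ^ K := by positivity
    rw [pK_succ, mul_sub, mul_one, Polynomial.coeff_sub]
    have h1 : (pK K * (Polynomial.C ((1 / 2 : ℝ) ^ K) * Polynomial.X)).coeff n
        = (1 / 2 : ℝ) ^ K * (pK K * Polynomial.X).coeff n := by
      rw [mul_left_comm, Polynomial.coeff_C_mul]
    have h2 : |(pK K * Polynomial.X).coeff n| ≤ 2 ^ K := by
      cases n with
      | zero => simp [hp.le]
      | succ n =>
        rw [Polynomial.coeff_mul_X]
        exact ih n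
    have h3 : |(1 / 2 : ℝ) ^ K * (pK K * Polynomial.X).coeff n| ≤ 1 * 2 ^ K := by
      rw [abs_mul]
      exact mul_le_mul ha h2 (abs_nonneg _) zero_le_one
    rw [h1]
    calc |(1 / 2 : ℝ) ^ K * (pK K * Polynomial.X).coeff n - (pK K).coeff n|
        ≤ |(1 / 2 : ℝ) ^ K * (pK K * Polynomial.X).coeff n| + |(pK K).coeff n| := abs_sub _ _
      _ ≤ 1 * 2 ^ K + 2 ^ K := add_le_add h3 (ih n)
      _ = 2 ^ (K + 1) := by ring

theorem pf_PKB : T_PKB := by
  refine ⟨pK_eval, ?_, fun K n => pK_coeff K n⟩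
  intro K X ε hε hX
  rw [pK_eval, norm_prod]
  have h0 : (0 : ℝ) ≤ 2 ^ ε - 1 := by
    have := Real.one_le_rpow (by norm_num : (1 : ℝ) ≤ 2) hε.le
    linarith
  have hc : (2 ^ ε - 1 : ℝ) ^ K = ∏ _k ∈ Finset.range K, (2 ^ ε - 1 : ℝ) := by
    rw [Finset.prod_const, Finset.card_range]
  rw [hc]
  refine Finset.prod_le_prod (fun _ _ => h0) fun k hk => ?_
  have hk' : (k : ℝ) + 1 ≤ K := by exact_mod_cast Finset.mem_range.mp hk
  have h1 : ‖(1 / 2 : ℂ) ^ k * X‖ = (2 : ℝ) ^ (-(k : ℝ)) * ‖X‖ := by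
    rw [norm_mul, norm_pow, Real.rpow_neg (by norm_num), Real.rpow_natCast]
    simp
  have h2 : (2 : ℝ) ^ ε ≤ ‖(1 / 2 : ℂ) ^ k * X‖ := by
    rw [h1]
    calc (2 : ℝ) ^ ε ≤ (2 : ℝ) ^ (-(k : ℝ) + (((K : ℝ) - 1) + ε)) :=
          Real.rpow_le_rpow_of_exponent_le (by norm_num) (by linarith)
      _ = (2 : ℝ) ^ (-(k : ℝ)) * 2 ^ (((K : ℝ) - 1) + ε) := by
          rw [Real.rpow_add (by norm_num)]
      _ ≤ (2 : ℝ) ^ (-(k : ℝ)) * ‖X‖ :=
          mul_le_mul_of_nonneg_left hX (by positivity)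
  have h3 := norm_sub_norm_le ((1 / 2 : ℂ) ^ k * X) 1
  rw [norm_one] at h3
  linarith

end Pool.Agent.H45.GZ
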